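import Mathlib

namespace Pool.Agent.Results.MP_9f131e_lc.NotConjugate

open FirstOrder FirstOrder.Language

/-- `A` satisfies all identities `s = t` in `E`: it belongs to the variety defined by `E`. -/
def InVariety (L : FirstOrder.Language.{0, 0}) (E : Set (L.Term ℕ × L.Term ℕ)) (A : Type) [L.Structure A] :
    Prop :=
  ∀ e ∈ E, ∀ v : ℕ → A, e.1.realize v = e.2.realize v

/-- `H` is a finitely generated free algebra of the variety defined by `E`. -/
def IsFGFree (L : FirstOrder.Language.{0, 0}) (E : Set (L.Term ℕ × L.Term ℕ)) (H : Type) [L.Structure H] :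
    Prop :=
  InVariety L E H ∧ ∃ (r : ℕ) (y : Fin r → H), ∀ (A : Type) [L.Structure A], InVariety L E A →
    ∀ a : Fin r → A, ∃! h : H →[L] A, ∀ i, h (y i) = a i

/-- Two tuples satisfy the same first-order formulas. -/
def SameType (L : FirstOrder.Language.{0, 0}) {H₁ H₂ : Type} [L.Structure H₁] [L.Structure H₂] {n : ℕ}
    (u : Fin n → H₁) (v : Fin n → H₂) : Prop :=
  ∀ φ : L.Formula (Fin n), φ.Realize u ↔ φ.Realize v

/-- Isotypic algebras: they realise the same types of finite tuples. -/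
def Isotypic (L : FirstOrder.Language.{0, 0}) (H₁ H₂ : Type) [L.Structure H₁] [L.Structure H₂] : Prop :=
  ∀ n : ℕ, (∀ u : Fin n → H₁, ∃ v : Fin n → H₂, SameType L u v) ∧
    (∀ v : Fin n → H₂, ∃ u : Fin n → H₁, SameType L u v)

def LL : FirstOrder.Language.{0, 0} where
  Functions n := {_p : Option ℕ // n = 1}
  Relations _ := Empty

def op (o : Option ℕ) : LL.Functions 1 := ⟨o, rfl⟩

def EE : Set (LL.Term ℕ × LL.Term ℕ) :=
  {e | ∃ n : ℕ, e = ((op none).apply₁ ((op (some n)).apply₁ (Term.var 0)), Term.var 0)}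

abbrev HH : Type := List ℕ × ℕ

def act : Option ℕ → HH → HH
  | some n, (w, j) => (n :: w, j)
  | none, ([], j) => ([], j + 1)
  | none, (_ :: w, j) => (w, j)

instance : LL.Structure HH where
  funMap {n} f v := act f.1 (v ⟨0, by rw [f.2]; exact one_pos⟩)
  RelMap r := r.elim

lemma funMap_eq {A : Type} [LL.Structure A] {n : ℕ} (f : LL.Functions n) (v : Fin n → A) :
    Structure.funMap f v = Structure.funMap (op f.1) ![v ⟨0, by rw [f.2]; exact one_pos⟩] := by
  obtain ⟨o, rfl⟩ := f
  congr 1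
  funext i
  fin_cases i
  rfl

def sig (N : ℕ) : List ℕ → ℕ → HH
  | [], j => ([], j + 1)
  | [n], 0 => if n < N then ([n], 1) else if n = N then ([], 0) else ([n - 1], 1)
  | n :: m :: w, 0 => act (some n) (sig N (m :: w) 0)
  | n :: w, j + 1 => (n :: w, j + 2)

def tau (N : ℕ) : List ℕ → ℕ → HH
  | w, 0 => (w ++ [N], 0)
  | [], j + 1 => ([], j)
  | [n], 1 => if n < N then ([n], 0) else ([n + 1], 0)
  | n :: m :: w, 1 => act (some n) (tau N (m :: w) 1)
  | n :: w, j + 2 => (n :: w, j + 1)

def sg (N : ℕ) (u : HH) : HH := sig N u.1 u.2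
def ta (N : ℕ) (u : HH) : HH := tau N u.1 u.2

lemma sg_some (N n : ℕ) (u : HH) (h : u ≠ ([], 0) ∨ n < N) :
    sg N (act (some n) u) = act (some n) (sg N u) := by
  obtain ⟨w, j⟩ := u
  rcases w with _ | ⟨m, w⟩ <;> rcases j with _ | j
  · have : n < N := by simpa using h
    simp [sg, sig, act, this]
  all_goals simp [sg, sig, act]

lemma ta_some (N n : ℕ) (u : HH) (h : u ≠ ([], 1)) :
    ta N (act (some n) u) = act (some n) (ta N u) := by
  obtain ⟨w, j⟩ := u
  rcases w with _ | ⟨m, w⟩ <;> rcases j with _ | _ | j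
  all_goals first | exact absurd rfl h | simp [ta, tau, act]

lemma sig_ne (N m : ℕ) (w : List ℕ) : sig N (m :: w) 0 ≠ ([], 1) := by
  rcases w with _ | ⟨k, w⟩
  · simp only [sig]; split_ifs <;> simp
  · simp only [sig]
    generalize sig N (k :: w) 0 = u
    obtain ⟨a, b⟩ := u
    simp [act]

lemma tau_ne (N m : ℕ) (w : List ℕ) : tau N (m :: w) 1 ≠ ([], 0) := by
  rcases w with _ | ⟨k, w⟩
  · simp only [tau]; split_ifs <;> simp
  · simp only [tau]
    generalize tau N (k :: w) 1 = u
    obtain ⟨a, b⟩ := u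
    simp [act]

lemma ta_sg (N : ℕ) (w : List ℕ) (j : ℕ) : ta N (sg N (w, j)) = (w, j) := by
  induction w with
  | nil => rfl
  | cons n w ih =>
    rcases w with _ | ⟨m, w⟩ <;> rcases j with _ | j
    · simp only [sg, sig]
      split_ifs with h1 h2
      · simp [ta, tau, h1]
      · simp [ta, tau, h2]
      · have h3 : ¬ n - 1 < N := by omega
        have h4 : n - 1 + 1 = n := by omega
        simp [ta, tau, h3, h4]
    · simp [sg, sig, ta, tau]
    · have e : sg N (n :: m :: w, 0) = act (some n) (sg N (m :: w, 0)) := by simp [sg, sig]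
      rw [e, ta_some N n (sg N (m :: w, 0)) (sig_ne N m w), ih]; rfl
    · simp [sg, sig, ta, tau]

lemma sg_ta (N : ℕ) (w : List ℕ) (j : ℕ) : sg N (ta N (w, j)) = (w, j) := by
  induction w with
  | nil =>
    rcases j with _ | j
    · simp [sg, ta, tau, sig]
    · rfl
  | cons n w ih =>
    rcases j with _ | _ | j
    · have e : ta N (n :: w, 0) = act (some n) (ta N (w, 0)) := by simp [ta, tau, act]
      rw [e, sg_some N n _ (Or.inl (by simp [ta, tau])), ih]; rfl
    · rcases w with _ | ⟨m, w⟩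
      · simp only [ta, tau]
        split_ifs with h1
        · simp [sg, sig, h1]
        · have h3 : ¬ n + 1 < N := by omega
          have h4 : ¬ n + 1 = N := by omega
          simp [sg, sig, h3, h4]
      · have e : ta N (n :: m :: w, 0 + 1) = act (some n) (ta N (m :: w, 0 + 1)) := by
          simp [ta, tau]
        rw [e, sg_some N n (ta N (m :: w, 0 + 1)) (Or.inl (tau_ne N m w)), ih]; rfl
    · simp [sg, sig, ta, tau]

lemma sg_none (N : ℕ) (u : HH) : sg N (act none u) = act none (sg N u) := by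
  obtain ⟨w, j⟩ := u
  rcases w with _ | ⟨n, w⟩
  · rfl
  · by_cases h : ((w, j) : HH) = ([], 0)
    · obtain ⟨rfl, rfl⟩ := Prod.mk.inj h
      simp only [sg, sig, act]
      split_ifs <;> rfl
    · change _ = act none (sg N (act (some n) (w, j)))
      rw [sg_some N n _ (Or.inl h)]
      rfl

lemma sg_bij (N : ℕ) : Function.Bijective (sg N) :=
  ⟨Function.LeftInverse.injective (g := ta N) fun u => ta_sg N u.1 u.2,
    Function.RightInverse.surjective (g := ta N) fun u => sg_ta N u.1 u.2⟩

lemma term_ev {α : Type} (t : LL.Term α) :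
    ∃ M : ℕ, ∀ N, M ≤ N → ∀ v : α → HH, t.realize (sg N ∘ v) = sg N (t.realize v) := by
  induction t with
  | var a => exact ⟨0, fun _ _ _ => rfl⟩
  | func f ts ih =>
    obtain ⟨o, rfl⟩ := f
    obtain ⟨M, hM⟩ := ih 0
    refine ⟨M + o.getD 0 + 1, fun N hN v => ?_⟩
    change act o ((ts 0).realize (sg N ∘ v)) = sg N (act o ((ts 0).realize v))
    rw [hM N (by omega)]
    rcases o with _ | n
    · exact (sg_none N _).symm
    · exact (sg_some N n _ (Or.inr (by simp at hN; omega))).symm

lemma form_ev {α : Type} {k : ℕ} (φ : LL.BoundedFormula α k) :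
    ∃ M : ℕ, ∀ N, M ≤ N → ∀ (v : α → HH) (xs : Fin k → HH),
      φ.Realize (sg N ∘ v) (sg N ∘ xs) ↔ φ.Realize v xs := by
  induction φ with
  | falsum => exact ⟨0, fun _ _ _ _ => Iff.rfl⟩
  | equal t₁ t₂ =>
    obtain ⟨M₁, h₁⟩ := term_ev t₁
    obtain ⟨M₂, h₂⟩ := term_ev t₂
    refine ⟨M₁ + M₂, fun N hN v xs => ?_⟩
    change t₁.realize _ = t₂.realize _ ↔ t₁.realize _ = t₂.realize _
    rw [← Sum.comp_elim, h₁ N (by omega), h₂ N (by omega)]
    exact (sg_bij N).1.eq_iff
  | rel r _ => exact r.elim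
  | imp f₁ f₂ ih₁ ih₂ =>
    obtain ⟨M₁, h₁⟩ := ih₁
    obtain ⟨M₂, h₂⟩ := ih₂
    refine ⟨M₁ + M₂, fun N hN v xs => ?_⟩
    simp only [BoundedFormula.realize_imp, h₁ N (by omega), h₂ N (by omega)]
  | all f ih =>
    obtain ⟨M, h⟩ := ih
    refine ⟨M, fun N hN v xs => ?_⟩
    simp only [BoundedFormula.realize_all]
    rw [(sg_bij N).2.forall]
    refine forall_congr' fun a => ?_
    rw [← h N hN v (Fin.snoc xs a), Fin.comp_snoc]

noncomputable def ev {A : Type} [LL.Structure A] (a : A) : List ℕ → ℕ → A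
  | [], 0 => a
  | [], j + 1 => Structure.funMap (op none) ![ev a [] j]
  | n :: w, j => Structure.funMap (op (some n)) ![ev a w j]

lemma free : IsFGFree LL EE HH := by
  refine ⟨?_, 1, fun _ => ([], 0), fun A _ hA a => ?_⟩
  · rintro _ ⟨n, rfl⟩ v
    rfl
  · have key : ∀ (n : ℕ) (b : A),
        Structure.funMap (op none) ![(Structure.funMap (op (some n)) ![b] : A)] = b := by
      intro n b
      have := hA _ ⟨n, rfl⟩ (fun _ => b)
      simpa using this
    refine ⟨⟨fun u => ev (a 0) u.1 u.2, fun {n} f v => ?_, fun r => r.elim⟩, fun i => ?_, ?_⟩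
    · rw [funMap_eq f (_ ∘ v)]
      change (fun u : HH => ev (a 0) u.1 u.2) (act f.1 (v _)) = _
      simp only [Function.comp]
      generalize v _ = u
      obtain ⟨w, j⟩ := u
      rcases f.1 with _ | m
      · rcases w with _ | ⟨n, w⟩
        · simp [act, ev]
        · simp [act, ev, key]
      · simp [act, ev]
    · fin_cases i
      change ev (a 0) [] 0 = a 0
      simp [ev]
    · intro h hh
      ext ⟨w, j⟩
      change h (w, j) = ev (a 0) w j
      have hm : ∀ (o : Option ℕ) (u : HH), h (act o u) = Structure.funMap (op o) ![h u] := by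
        intro o u
        have := h.map_fun (op o) ![u]
        rw [funMap_eq (op o) (_ ∘ _)] at this
        exact this
      induction w with
      | nil =>
        induction j with
        | zero => rw [hh 0]; simp [ev]
        | succ j ih => rw [ev, ← ih, ← hm]; rfl
      | cons n w ih => rw [ev, ← ih, ← hm]; rfl

theorem result : ∃ (L : FirstOrder.Language.{0, 0}) (_ : ∀ n, IsEmpty (L.Relations n))
    (E : Set (L.Term ℕ × L.Term ℕ)) (H₁ H₂ : Type) (_ : L.Structure H₁) (_ : L.Structure H₂),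
    IsFGFree L E H₁ ∧ IsFGFree L E H₂ ∧ Isotypic L H₁ H₂ ∧
      ∃ (n : ℕ) (μ : Fin n → H₁) (ν : Fin n → H₂), SameType L μ ν ∧
        ¬ ∃ σ : H₁ ≃[L] H₂, ∀ i, σ (μ i) = ν i := by
  refine ⟨LL, fun _ => inferInstanceAs (IsEmpty Empty), EE, HH, HH, inferInstance, inferInstance,
    free, free, fun n => ⟨fun u => ⟨u, fun _ => Iff.rfl⟩, fun u => ⟨u, fun _ => Iff.rfl⟩⟩, 1,
    fun _ => ([], 0), fun _ => ([], 1), fun φ => ?_, ?_⟩
  · obtain ⟨M, hM⟩ := form_ev φ
    have := hM M le_rfl (fun _ => ([], 0)) (fun i => i.elim0)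
    have e : (sg M ∘ fun _ : Fin 1 => (([], 0) : HH)) = fun _ => ([], 1) := by
      funext i; simp [sg, sig]
    rw [e] at this
    have e2 : ∀ (v : Fin 1 → HH) (xs : Fin 0 → HH),
        BoundedFormula.Realize φ v xs ↔ Formula.Realize φ v := fun v xs => by
      unfold Formula.Realize
      exact iff_of_eq (congrArg _ (funext fun i => i.elim0))
    rw [e2, e2] at this
    exact this.symm
  · rintro ⟨σ, hσ⟩
    have hm : ∀ (o : Option ℕ) (u : HH), σ (act o u) = act o (σ u) := fun o u =>
      σ.map_fun (op o) ![u]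
    have key : ∀ (w : List ℕ) (j : ℕ), σ (w, j) = (w, j + 1) := by
      intro w j
      induction w with
      | nil =>
        induction j with
        | zero => exact hσ 0
        | succ j ih => exact (hm none ([], j)).trans (by rw [ih]; rfl)
      | cons n w ih => exact (hm (some n) (w, j)).trans (by rw [ih]; rfl)
    obtain ⟨⟨w, j⟩, hu⟩ := σ.surjective ([], 0)
    rw [key] at hu
    exact Nat.succ_ne_zero j (Prod.mk.inj hu).2

end Pool.Agent.Results.MP_9f131e_lc.NotConjugate
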